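import Pool.Agent.TH968.FC.Low

/-!
# F-nef divisors on `M̄_{0,p+1}` that are invariant under permutations of groups of marks

The marks are `0, …, p-1` (the type `Fin p`) and `∞`, so there are `p + 1` marks.  The boundary
divisors of `M̄_{0,p+1}` are the `δ_S`, `S` a set of marks different from `∞` with `2 ≤ |S| < p`
(`δ_S` separates `S` from the other marks).
-/

namespace Pool.Agent.Results.MP_23e236_ag.InvariantDivisors

open Finset

variable {p k q : ℕ}

/-- `c` is a family of coefficients: it stands for the divisor `∑ c S • δ_S`, the sum over the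
`S` with `2 ≤ |S| < p`; it vanishes on the sets that give no boundary divisor. -/
def IsDivisor (c : Finset (Fin p) → ℝ) : Prop :=
  (∀ S : Finset (Fin p), S.card ≤ 1 → c S = 0) ∧ c univ = 0

/-- `∑ c S • δ_S` has nonnegative degree on every F-curve: the F-curve of the partition
`A, B, C, (the rest, with ∞)` of the marks has degree `1` on `δ_(A∪B), δ_(A∪C), δ_(B∪C)`, degree
`-1` on `δ_A, δ_B, δ_C, δ_(A∪B∪C)` (those of them that exist) and `0` on the others. -/
def FNef (c : Finset (Fin p) → ℝ) : Prop :=
  ∀ A B C : Finset (Fin p), A.Nonempty → B.Nonempty → C.Nonempty →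
    Disjoint A B → Disjoint A C → Disjoint B C →
    c A + c B + c C + c (A ∪ B ∪ C) ≤ c (A ∪ B) + c (A ∪ C) + c (B ∪ C)

/-- `m S` are the intersection numbers `C · δ_S` of a curve `C` in `M̄_{0,k+1}` that is not contained
in the boundary, and `d = C · ψ_∞`: all `m S ≥ 0`, and for all marks `i ≠ j` different from `∞`
`ψ_∞ = ∑ δ_S`, the sum over the `S` containing `i` and `j`. -/
def IsCurve (m : Finset (Fin k) → ℝ) (d : ℝ) : Prop :=
  (∀ S : Finset (Fin k), 0 ≤ m S) ∧ (∀ S : Finset (Fin k), S.card ≤ 1 → m S = 0) ∧ m univ = 0 ∧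
    ∀ i j : Fin k, i ≠ j →
      ∑ S ∈ univ.filter (fun S : Finset (Fin k) => i ∈ S ∧ j ∈ S), m S = d

/-- The degree of `∑ c S • δ_S` on the curve `(m, d)`. -/
def degree (c : Finset (Fin k) → ℝ) (m : Finset (Fin k) → ℝ) : ℝ :=
  ∑ S : Finset (Fin k), c S * m S

/-- The strong F-conjecture on `M̄_{0,j+1}`: every F-nef divisor has nonnegative degree on all
`(m, d)` (equivalently, by duality, it is an effective combination of boundary divisors). -/
def StrongF (j : ℕ) : Prop :=
  ∀ c : Finset (Fin j) → ℝ, IsDivisor c → FNef c → ∀ m d, IsCurve m d → 0 ≤ degree c m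

/-- `∑ c S • δ_S` is invariant under the permutations of the marks that preserve the colours. -/
def ColourInv (f : Fin p → Fin q) (c : Finset (Fin p) → ℝ) : Prop :=
  ∀ σ : Equiv.Perm (Fin p), (∀ x, f (σ x) = f x) → ∀ S, c (S.map σ.toEmbedding) = c S

/-- The type of leg `i`: the number of marks of each colour among the marks `B i` beyond it. -/
def legType (f : Fin p → Fin q) (B : Fin k → Finset (Fin p)) (i : Fin k) (j : Fin q) : ℕ :=
  ((B i).filter (fun x => f x = j)).card

/-- The degree of `∑ c S • δ_S` on a curve `(m, d)` in the boundary stratum of the stable curves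
with a component that carries the legs `0, …, k-1` and one more leg: beyond leg `i` lie the marks
`B i`, beyond the last leg all other marks and `∞`.  Only this component moves.  The `δ_A` with
`A` a union of legs `S` restricts to `δ_S`; `δ_(B i)` restricts to `-ψ_i`, of degree
`d - ∑ m S` (sum over the `S` containing `i`), and `δ_(all legs)` to `-ψ_∞`, of degree `-d`. -/
def stratumDegree (c : Finset (Fin p) → ℝ) (B : Fin k → Finset (Fin p))
    (m : Finset (Fin k) → ℝ) (d : ℝ) : ℝ :=
  ∑ S : Finset (Fin k), c (S.biUnion B) * m S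
    - ∑ i : Fin k, c (B i) * (∑ S ∈ univ.filter (fun S : Finset (Fin k) => i ∈ S), m S - d)
    - c (univ.biUnion B) * d

/-- `∑ c S • δ_S` is invariant under all permutations of the marks of `T`. -/
def InvOn (T : Finset (Fin p)) (c : Finset (Fin p) → ℝ) : Prop :=
  ∀ σ : Equiv.Perm (Fin p), (∀ x, x ∉ T → σ x = x) → ∀ S, c (S.map σ.toEmbedding) = c S

/-- `∑ c S • δ_S` has nonnegative degree on all curves in all strata (the open stratum, with
`B i = {i}`, included). -/
def NonnegOnCurves (c : Finset (Fin p) → ℝ) : Prop :=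
  ∀ (k : ℕ) (B : Fin k → Finset (Fin p)), (∀ i, (B i).Nonempty) →
    (∀ i j, i ≠ j → Disjoint (B i) (B j)) →
    ∀ (m : Finset (Fin k) → ℝ) (d : ℝ), IsCurve m d → 0 ≤ stratumDegree c B m d

/-- Suppose that the strong F-conjecture holds with `6, …, r` marks besides `∞` (no hypothesis for
`r ≤ 5`).  An F-nef divisor that is invariant under a Young subgroup has nonnegative degree on the
curves in every stratum whose moving component has legs of at most `r` types (besides the leg of
`∞`).  In particular the F-conjecture holds for the divisors on `M̄_{0,g+n}` that are symmetric in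
`g` of the marks, that is, for the divisors on `M̄_{g,n}`, when `1 ≤ n ≤ r + 1` and
`g < (r + 3 - n) (r + 2 - n) / 2`. -/
theorem result (r : ℕ) (h : ∀ j, 6 ≤ j → j ≤ r → StrongF j) :
    (∀ (p k q : ℕ) (f : Fin p → Fin q) (c : Finset (Fin p) → ℝ), IsDivisor c → FNef c →
      ColourInv f c → ∀ B : Fin k → Finset (Fin p), (∀ i, (B i).Nonempty) →
      (∀ i j, i ≠ j → Disjoint (B i) (B j)) → (univ.image (legType f B)).card ≤ r →
      ∀ (m : Finset (Fin k) → ℝ) (d : ℝ), IsCurve m d → 0 ≤ stratumDegree c B m d) ∧
    (∀ (p g n : ℕ) (T : Finset (Fin p)) (c : Finset (Fin p) → ℝ), T.card = g → p + 1 = g + n →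
      g < (r + 3 - n).choose 2 → IsDivisor c → FNef c → InvOn T c → NonnegOnCurves c) :=
  ⟨fun _ _ _ f c hc hF hinv B hne hB hr m d hm =>
    Pool.Agent.TH968.FC.stratum_nonneg
      (fun V b hV hb => Pool.Agent.TH968.FC.base_mixed h V b hV hb) f c hc hF hinv B hne hB
      hr m d hm,
    fun _ _ _ T c hT hp hg hc hF hinv => Pool.Agent.TH968.FC.nonneg_of_base (r := r)
      (fun _ V b hV hb => Pool.Agent.TH968.FC.base_mixed h V b hV hb) T hT hp c hc hF hinv hg⟩

end Pool.Agent.Results.MP_23e236_ag.InvariantDivisors
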