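import Mathlib

set_option autoImplicit false

/-!
# A full-dimensional cone of divisors on `M̄_{0,n}` in which the F-conjecture holds

The marks are `0, …, p-1` (the type `Fin p`) and `∞`, so `n = p + 1`.  The boundary divisors of
`M̄_{0,n}` are the `δ_S`, `S` a set of marks different from `∞` with `2 ≤ |S| < p` (`δ_S`
separates `S` from the other marks).
-/

namespace Pool.Agent.Results.MP_23e236_ag.MonotoneFDegrees

open Finset

variable {p : ℕ}

/-- `c` is a family of coefficients: it stands for the divisor `∑ c S • δ_S`, the sum over the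
`S` with `2 ≤ |S| < p`; it vanishes on the sets that give no boundary divisor. -/
def IsDivisor (c : Finset (Fin p) → ℝ) : Prop :=
  (∀ S : Finset (Fin p), S.card ≤ 1 → c S = 0) ∧ c univ = 0

/-- The degree of `∑ c S • δ_S` on the F-curve of the partition `A, B, C, (the rest, with ∞)` of
the marks (it is `0` if `C` is empty and `c` is a divisor). -/
def fdeg (c : Finset (Fin p) → ℝ) (A B C : Finset (Fin p)) : ℝ :=
  c (A ∪ B) + c (A ∪ C) + c (B ∪ C) - c A - c B - c C - c (A ∪ B ∪ C)

/-- For all marks `x ≠ y` the degree of the divisor on the F-curve of the partition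
`{x}, {y}, T, (the rest, with ∞)` does not decrease when marks are moved from the part of `∞` to
`T` (for `T = ∅` the degree is read as `0`). -/
def FMonotone (c : Finset (Fin p) → ℝ) : Prop :=
  ∀ (x y : Fin p) (T T' : Finset (Fin p)), x ≠ y → T ⊆ T' → x ∉ T' → y ∉ T' →
    fdeg c {x} {y} T ≤ fdeg c {x} {y} T'

/-- `P` is a set of pairwise disjoint nonempty sets of marks.  It stands for a component (a vertex
of the dual tree) of the stable curves of a boundary stratum: its elements are the sets of marks
on the branches at the component, without the branch that contains `∞`.  The component gives the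
factor `M̄_{0,|P|+1}` of the closure of the stratum. -/
def IsBranches (P : Finset (Finset (Fin p))) : Prop :=
  (∀ A ∈ P, A.Nonempty) ∧ ∀ A ∈ P, ∀ B ∈ P, A ≠ B → Disjoint A B

/-- The marks on the branches in `Q`. -/
def marks (Q : Finset (Finset (Fin p))) : Finset (Fin p) := Q.biUnion id

/-- `m Q` (`Q` a set of branches of `P`) are the intersection numbers `C · δ_Q` of a curve `C` in
the factor `M̄_{0,|P|+1}` that is not contained in its boundary, and `d = C · ψ_∞`: all
`m Q ≥ 0`, and for all branches `A ≠ B` in `P`, `ψ_∞ = ∑ δ_Q`, the sum over the `Q` containing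
`A` and `B`. -/
def IsCurve (P : Finset (Finset (Fin p))) (m : Finset (Finset (Fin p)) → ℕ) (d : ℕ) : Prop :=
  (∀ Q : Finset (Finset (Fin p)), Q.card ≤ 1 → m Q = 0) ∧ m P = 0 ∧
    ∀ A ∈ P, ∀ B ∈ P, A ≠ B →
      ∑ Q ∈ P.powerset.filter (fun Q : Finset (Finset (Fin p)) => A ∈ Q ∧ B ∈ Q), m Q = d

/-- The degree on the curve of the restriction of `∑ c S • δ_S` to the factor of `P`, which is
`∑ c (marks Q) • δ_Q - ∑ c A • ψ_A - c (marks P) • ψ_∞`; here
`C · ψ_A = ∑ C · δ_Q - C · ψ_∞`, the sum over the `Q` containing `A`. -/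
noncomputable def degree (c : Finset (Fin p) → ℝ) (P : Finset (Finset (Fin p)))
    (m : Finset (Finset (Fin p)) → ℕ) (d : ℕ) : ℝ :=
  ∑ Q ∈ P.powerset, c (marks Q) * m Q
    - ∑ A ∈ P, c A *
        ((∑ Q ∈ P.powerset.filter (fun Q : Finset (Finset (Fin p)) => A ∈ Q), (m Q : ℝ)) - d)
    - c (marks P) * d

/-- The divisor has nonnegative degree on every curve in every factor of the closure of every
stratum (the open stratum is the case where `P` consists of the `{i}`). -/
def IsNef (c : Finset (Fin p) → ℝ) : Prop :=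
  ∀ P : Finset (Finset (Fin p)), IsBranches P → ∀ (m : Finset (Finset (Fin p)) → ℕ) (d : ℕ),
    IsCurve P m d → 0 ≤ degree c P m d

/-- For every `P` as above some branch `A ∈ P` has the following property: the cost game
`Q ↦ c (A ∪ marks Q) - c A - c (marks Q)` on the other branches has a nonempty core.  (The divisor
has nonnegative degree on the F-curves if and only if all these games are subadditive.) -/
def HasCores (c : Finset (Fin p) → ℝ) : Prop :=
  ∀ P : Finset (Finset (Fin p)), IsBranches P → P.Nonempty →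
    ∃ A ∈ P, ∃ w : Finset (Fin p) → ℝ,
      (∀ Q ⊆ P.erase A, ∑ B ∈ Q, w B ≤ c (A ∪ marks Q) - c A - c (marks Q)) ∧
      ∑ B ∈ P.erase A, w B =
        c (A ∪ marks (P.erase A)) - c A - c (marks (P.erase A))

/-! ### Cores give nefness -/

lemma marks_insert (A : Finset (Fin p)) (Q : Finset (Finset (Fin p))) :
    marks (insert A Q) = A ∪ marks Q := by
  unfold marks
  rw [biUnion_insert]
  rfl

lemma marks_empty : marks (∅ : Finset (Finset (Fin p))) = ∅ := rfl

lemma IsBranches.subset {P U : Finset (Finset (Fin p))} (hP : IsBranches P) (h : U ⊆ P) :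
    IsBranches U :=
  ⟨fun A hA => hP.1 A (h hA), fun A hA B hB => hP.2 A (h hA) B (h hB)⟩

/-- The coefficient of a set of branches, without the parts of the single branches. -/
noncomputable def G (c : Finset (Fin p) → ℝ) (Q : Finset (Finset (Fin p))) : ℝ :=
  c (marks Q) - ∑ B ∈ Q, c B

lemma G_insert (c : Finset (Fin p) → ℝ) {A : Finset (Fin p)} {Q : Finset (Finset (Fin p))}
    (h : A ∉ Q) : G c (insert A Q) = G c Q + (c (A ∪ marks Q) - c A - c (marks Q)) := by
  unfold G
  rw [marks_insert, sum_insert h]
  ring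

lemma G_empty {c : Finset (Fin p) → ℝ} (hc : IsDivisor c) : G c ∅ = 0 := by
  unfold G
  rw [marks_empty, hc.1 ∅ (by simp)]
  simp

lemma degree_eq (c : Finset (Fin p) → ℝ) (P : Finset (Finset (Fin p)))
    (m : Finset (Finset (Fin p)) → ℕ) (d : ℕ) :
    degree c P m d = ∑ Q ∈ P.powerset, (m Q : ℝ) * G c Q - d * G c P := by
  have h1 : ∑ A ∈ P, c A * (∑ Q ∈ P.powerset.filter (fun Q : Finset (Finset (Fin p)) => A ∈ Q),
      (m Q : ℝ)) = ∑ Q ∈ P.powerset, (m Q : ℝ) * ∑ A ∈ Q, c A := by
    have h2 : ∀ A ∈ P, c A * (∑ Q ∈ P.powerset.filter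
        (fun Q : Finset (Finset (Fin p)) => A ∈ Q), (m Q : ℝ)) =
        ∑ Q ∈ P.powerset, if A ∈ Q then (m Q : ℝ) * c A else 0 := by
      intro A _
      rw [mul_sum, sum_filter]
      refine sum_congr rfl fun Q _ => ?_
      split_ifs <;> ring
    rw [sum_congr rfl h2, sum_comm]
    refine sum_congr rfl fun Q hQ => ?_
    rw [← sum_filter, mul_sum]
    refine sum_congr ?_ fun _ _ => rfl
    ext A
    rw [mem_filter]
    exact ⟨fun h => h.2, fun h => ⟨mem_powerset.1 hQ h, h⟩⟩
  unfold degree
  simp only [mul_sub, sum_sub_distrib]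
  rw [h1]
  unfold G
  simp only [mul_sub, sum_sub_distrib]
  rw [← sum_mul]
  have h3 : ∑ Q ∈ P.powerset, c (marks Q) * (m Q : ℝ) =
      ∑ Q ∈ P.powerset, (m Q : ℝ) * c (marks Q) := sum_congr rfl fun _ _ => mul_comm _ _
  rw [h3]
  ring

/-- Removing the branches one after the other. -/
theorem core_step {c : Finset (Fin p) → ℝ} (hc : IsDivisor c) (hw : HasCores c)
    {P : Finset (Finset (Fin p))} (hP : IsBranches P) {m : Finset (Finset (Fin p)) → ℕ} {d : ℕ}
    (hm : IsCurve P m d) :
    ∀ (k : ℕ) (U : Finset (Finset (Fin p))), U.card = k → U ⊆ P →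
      d * G c U ≤ ∑ Q ∈ P.powerset, (m Q : ℝ) * G c (Q ∩ U) := by
  intro k
  induction k with
  | zero =>
    intro U hU _
    rw [card_eq_zero] at hU
    subst hU
    simp [G_empty hc]
  | succ k ih =>
    intro U hU hUP
    have hne : U.Nonempty := card_pos.1 (by omega)
    obtain ⟨A, hA, w, hw1, hw2⟩ := hw U (hP.subset hUP) hne
    have hcard : (U.erase A).card = k := by
      rw [card_erase_of_mem hA]
      omega
    have hVP : U.erase A ⊆ P := (erase_subset _ _).trans hUP
    have ih' := ih (U.erase A) hcard hVP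
    have hUA : U = insert A (U.erase A) := (insert_erase hA).symm
    have hG : G c U = G c (U.erase A) +
        (c (A ∪ marks (U.erase A)) - c A - c (marks (U.erase A))) := by
      have h1 := G_insert c (notMem_erase A U)
      rw [insert_erase hA] at h1
      exact h1
    have hstep : ∀ Q ∈ P.powerset, (m Q : ℝ) * G c (Q ∩ U.erase A) +
        (if A ∈ Q then (m Q : ℝ) * ∑ B ∈ Q ∩ U.erase A, w B else 0) ≤
        (m Q : ℝ) * G c (Q ∩ U) := by
      intro Q _
      by_cases hAQ : A ∈ Q
      · have h1 : Q ∩ U = insert A (Q ∩ U.erase A) := by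
          ext B
          simp only [mem_inter, mem_insert, mem_erase]
          constructor
          · rintro ⟨h1, h2⟩
            by_cases h3 : B = A
            · exact Or.inl h3
            · exact Or.inr ⟨h1, h3, h2⟩
          · rintro (h1 | ⟨h1, _, h3⟩)
            · rw [h1]
              exact ⟨hAQ, hA⟩
            · exact ⟨h1, h3⟩
        have h2 : A ∉ Q ∩ U.erase A := by
          simp
        rw [if_pos hAQ, h1, G_insert c h2, ← mul_add]
        refine mul_le_mul_of_nonneg_left ?_ (Nat.cast_nonneg _)
        have h3 := hw1 (Q ∩ U.erase A) inter_subset_right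
        linarith
      · have h1 : Q ∩ U = Q ∩ U.erase A := by
          ext B
          simp only [mem_inter, mem_erase]
          constructor
          · rintro ⟨h1, h2⟩
            exact ⟨h1, fun h => hAQ (h ▸ h1), h2⟩
          · rintro ⟨h1, _, h3⟩
            exact ⟨h1, h3⟩
        rw [if_neg hAQ, h1, add_zero]
    have hsum := sum_le_sum hstep
    rw [sum_add_distrib] at hsum
    have hswap : ∑ Q ∈ P.powerset, (if A ∈ Q then (m Q : ℝ) * ∑ B ∈ Q ∩ U.erase A, w B else 0) =
        d * ∑ B ∈ U.erase A, w B := by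
      have h1 : ∀ Q ∈ P.powerset,
          (if A ∈ Q then (m Q : ℝ) * ∑ B ∈ Q ∩ U.erase A, w B else 0) =
          ∑ B ∈ U.erase A, if A ∈ Q ∧ B ∈ Q then (m Q : ℝ) * w B else 0 := by
        intro Q _
        by_cases hAQ : A ∈ Q
        · rw [if_pos hAQ, mul_sum]
          simp only [hAQ, true_and]
          rw [← sum_filter]
          refine sum_congr ?_ fun _ _ => rfl
          ext B
          simp only [mem_inter, mem_filter, mem_erase]
          tauto
        · simp [hAQ]
      rw [sum_congr rfl h1, sum_comm, mul_sum]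
      refine sum_congr rfl fun B hB => ?_
      rw [← sum_filter, ← sum_mul]
      congr 1
      have h2 := hm.2.2 A (hUP hA) B (hVP hB) (fun h => (mem_erase.1 hB).1 h.symm)
      rw [← h2]
      push_cast
      rfl
    rw [hswap, hw2] at hsum
    rw [hG]
    nlinarith [hsum, ih']

theorem nef_of_cores {c : Finset (Fin p) → ℝ} (hc : IsDivisor c) (hw : HasCores c) : IsNef c := by
  intro P hP m d hm
  rw [degree_eq]
  have h1 := core_step hc hw hP hm P.card P rfl Subset.rfl
  have h2 : ∑ Q ∈ P.powerset, (m Q : ℝ) * G c (Q ∩ P) = ∑ Q ∈ P.powerset, (m Q : ℝ) * G c Q := by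
    refine sum_congr rfl fun Q hQ => ?_
    rw [inter_eq_left.2 (mem_powerset.1 hQ)]
  rw [h2] at h1
  linarith

/-! ### Monotone degrees give cores -/

/-- The second difference of `c` at `Y`. -/
def E (c : Finset (Fin p) → ℝ) (A B Y : Finset (Fin p)) : ℝ :=
  c (A ∪ B ∪ Y) - c (A ∪ Y) - c (B ∪ Y) + c Y

lemma E_comm (c : Finset (Fin p) → ℝ) (A B Y : Finset (Fin p)) : E c A B Y = E c B A Y := by
  unfold E
  rw [union_comm A B]
  ring

lemma E_insert (c : Finset (Fin p) → ℝ) (a : Fin p) (A B Y : Finset (Fin p)) :
    E c (insert a A) B Y = E c A B (insert a Y) + E c {a} B Y := by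
  unfold E
  have e1 : A ∪ B ∪ insert a Y = insert a A ∪ B ∪ Y := by
    ext i
    simp only [mem_union, mem_insert]
    tauto
  have e2 : A ∪ insert a Y = insert a A ∪ Y := by
    ext i
    simp only [mem_union, mem_insert]
    tauto
  have e3 : B ∪ insert a Y = {a} ∪ B ∪ Y := by
    ext i
    simp only [mem_union, mem_insert, mem_singleton]
    tauto
  have e4 : insert a Y = {a} ∪ Y := by ext; simp
  rw [e1, e2, e3, e4]
  ring

lemma E_empty (c : Finset (Fin p) → ℝ) (B Y : Finset (Fin p)) : E c ∅ B Y = 0 := by
  unfold E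
  rw [empty_union, empty_union]
  ring

lemma fdeg_eq (c : Finset (Fin p) → ℝ) (A B Y : Finset (Fin p)) :
    fdeg c A B Y = c (A ∪ B) - c A - c B - E c A B Y := by
  unfold fdeg E
  ring

lemma E_mono_single {c : Finset (Fin p) → ℝ} (h : FMonotone c) (a : Fin p)
    (B : Finset (Fin p)) :
    ∀ Y Y' : Finset (Fin p), a ∉ B → Y ⊆ Y' → a ∉ Y' → Disjoint B Y' →
      E c {a} B Y' ≤ E c {a} B Y := by
  induction B using Finset.induction_on with
  | empty =>
    intro Y Y' _ _ _ _
    rw [E_comm c {a}, E_comm c {a}, E_empty, E_empty]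
  | insert b B hb ih =>
    intro Y Y' ha hY haY hd
    rw [disjoint_insert_left] at hd
    have hab : a ≠ b := fun h => ha (h ▸ mem_insert_self _ _)
    have haB : a ∉ B := fun h => ha (mem_insert_of_mem h)
    rw [E_comm c {a}, E_comm c {a}, E_insert, E_insert]
    have h1 := ih (insert b Y) (insert b Y') haB (insert_subset_insert _ hY)
      (by simp [hab, haY]) (by rw [disjoint_insert_right]; exact ⟨hb, hd.2⟩)
    rw [E_comm c {a}, E_comm c {a}] at h1
    have h2 := h b a Y Y' (Ne.symm hab) hY hd.1 haY
    rw [fdeg_eq, fdeg_eq] at h2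
    linarith

lemma E_mono {c : Finset (Fin p) → ℝ} (h : FMonotone c) (A : Finset (Fin p)) :
    ∀ B Y Y' : Finset (Fin p), Disjoint A B → Y ⊆ Y' → Disjoint A Y' → Disjoint B Y' →
      E c A B Y' ≤ E c A B Y := by
  induction A using Finset.induction_on with
  | empty =>
    intro B Y Y' _ _ _ _
    rw [E_empty, E_empty]
  | insert a A ha ih =>
    intro B Y Y' hAB hY hAY hBY
    rw [disjoint_insert_left] at hAB hAY
    rw [E_insert, E_insert]
    have h1 := ih B (insert a Y) (insert a Y') hAB.2 (insert_subset_insert _ hY)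
      (by rw [disjoint_insert_right]; exact ⟨ha, hAY.2⟩)
      (by rw [disjoint_insert_right]; exact ⟨hAB.1, hBY⟩)
    have h2 := E_mono_single h a B Y Y' hAB.1 hY hAY.1 hBY
    linarith

/-- A submodular game has a nonempty core. -/
lemma exists_core {α : Type} [DecidableEq α] (v : Finset α → ℝ) (h0 : v ∅ = 0)
    (U : Finset α) :
    (∀ (B : α) (Q Q' : Finset α), Q ⊆ Q' → B ∉ Q' → insert B Q' ⊆ U →
      v (insert B Q') - v Q' ≤ v (insert B Q) - v Q) →
    ∃ w : α → ℝ, (∀ Q ⊆ U, ∑ B ∈ Q, w B ≤ v Q) ∧ ∑ B ∈ U, w B = v U := by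
  induction U using Finset.induction_on with
  | empty =>
    intro _
    refine ⟨fun _ => 0, ?_, ?_⟩
    · intro Q hQ
      rw [subset_empty.1 hQ, h0]
      simp
    · rw [h0]
      simp
  | insert b U hb ih =>
    intro h
    obtain ⟨w, hw1, hw2⟩ := ih (fun B Q Q' h1 h2 h3 => h B Q Q' h1 h2
      (h3.trans (subset_insert _ _)))
    refine ⟨fun a => if a = b then v (insert b U) - v U else w a, ?_, ?_⟩
    · intro Q hQ
      by_cases hbQ : b ∈ Q
      · have h1 : Q = insert b (Q.erase b) := (insert_erase hbQ).symm
        have h2 : Q.erase b ⊆ U := by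
          intro a ha
          rw [mem_erase] at ha
          exact (mem_insert.1 (hQ ha.2)).resolve_left ha.1
        have h3 := hw1 _ h2
        have h4 := h b (Q.erase b) U h2 hb Subset.rfl
        rw [insert_erase hbQ] at h4
        rw [h1, sum_insert (notMem_erase _ _), ← h1, if_pos rfl]
        have h5 : ∑ x ∈ Q.erase b, (if x = b then v (insert b U) - v U else w x) =
            ∑ x ∈ Q.erase b, w x := by
          refine sum_congr rfl fun x hx => ?_
          rw [if_neg (mem_erase.1 hx).1]
        rw [h5]
        linarith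
      · have h2 : Q ⊆ U := by
          intro a ha
          exact (mem_insert.1 (hQ ha)).resolve_left (fun h' => hbQ (h' ▸ ha))
        have h5 : ∑ x ∈ Q, (if x = b then v (insert b U) - v U else w x) =
            ∑ x ∈ Q, w x := by
          refine sum_congr rfl fun x hx => ?_
          have hxb : x ≠ b := fun h' => hbQ (h' ▸ hx)
          rw [if_neg hxb]
        rw [h5]
        exact hw1 Q h2
    · rw [sum_insert hb, if_pos rfl]
      have h5 : ∑ x ∈ U, (if x = b then v (insert b U) - v U else w x) =
          ∑ x ∈ U, w x := by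
        refine sum_congr rfl fun x hx => ?_
        have hxb : x ≠ b := fun h' => hb (h' ▸ hx)
        rw [if_neg hxb]
      rw [h5, hw2]
      ring

theorem cores_of_monotone {c : Finset (Fin p) → ℝ} (hc : IsDivisor c) (h : FMonotone c) :
    HasCores c := by
  intro P hP hne
  obtain ⟨A, hA⟩ := hne
  refine ⟨A, hA, ?_⟩
  refine exists_core (fun Q => c (A ∪ marks Q) - c A - c (marks Q)) ?_ (P.erase A) ?_
  · show c (A ∪ marks ∅) - c A - c (marks ∅) = 0
    rw [marks_empty, union_empty, hc.1 ∅ (by simp)]
    ring
  · intro B Q Q' hQ hB hU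
    show (c (A ∪ marks (insert B Q')) - c A - c (marks (insert B Q'))) -
      (c (A ∪ marks Q') - c A - c (marks Q')) ≤
      (c (A ∪ marks (insert B Q)) - c A - c (marks (insert B Q))) -
      (c (A ∪ marks Q) - c A - c (marks Q))
    have hBP : B ∈ P.erase A := hU (mem_insert_self _ _)
    have hQ'P : Q' ⊆ P.erase A := (subset_insert _ _).trans hU
    have hAB : Disjoint A B :=
      hP.2 A hA B (mem_of_mem_erase hBP) (fun h' => (mem_erase.1 hBP).1 h'.symm)
    have hY : marks Q ⊆ marks Q' := biUnion_subset_biUnion_of_subset_left _ hQ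
    have hAY : Disjoint A (marks Q') := by
      unfold marks
      rw [disjoint_biUnion_right]
      intro C hC
      have hCP := hQ'P hC
      exact hP.2 A hA C (mem_of_mem_erase hCP) (fun h' => (mem_erase.1 hCP).1 h'.symm)
    have hBY : Disjoint B (marks Q') := by
      unfold marks
      rw [disjoint_biUnion_right]
      intro C hC
      exact hP.2 B (mem_of_mem_erase hBP) C (mem_of_mem_erase (hQ'P hC))
        (fun h' => hB (h' ▸ hC))
    have h1 := E_mono h A B (marks Q) (marks Q') hAB hY hAY hBY
    unfold E at h1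
    rw [marks_insert, marks_insert, ← union_assoc, ← union_assoc]
    linarith

/-! ### The cone is full-dimensional -/

lemma monotone_near {c : Finset (Fin p) → ℝ}
    (h : ∀ S : Finset (Fin p), |c S - S.card * (S.card - 1) * (p - S.card)| ≤ 3 / 4) :
    FMonotone c := by
  have key : ∀ (x y z : Fin p) (T : Finset (Fin p)), x ≠ y → z ∉ T → x ∉ insert z T →
      y ∉ insert z T → E c {x} {y} (insert z T) ≤ E c {x} {y} T := by
    intro x y z T hxy hz hx hy
    have hxz : x ≠ z := fun h' => hx (h' ▸ mem_insert_self _ _)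
    have hyz : y ≠ z := fun h' => hy (h' ▸ mem_insert_self _ _)
    have hxT : x ∉ T := fun h' => hx (mem_insert_of_mem h')
    have hyT : y ∉ T := fun h' => hy (mem_insert_of_mem h')
    have k1 : ({x} ∪ {y} ∪ insert z T : Finset (Fin p)).card = T.card + 3 := by
      have e : ({x} ∪ {y} ∪ insert z T : Finset (Fin p)) = insert x (insert y (insert z T)) := by
        ext; simp; tauto
      rw [e, card_insert_of_notMem (by simp [hxy, hxz, hxT]),
        card_insert_of_notMem hy, card_insert_of_notMem hz]
    have k2 : ({x} ∪ insert z T : Finset (Fin p)).card = T.card + 2 := by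
      have e : ({x} ∪ insert z T : Finset (Fin p)) = insert x (insert z T) := by
        ext i
        simp only [mem_union, mem_insert, mem_singleton]
      rw [e, card_insert_of_notMem hx, card_insert_of_notMem hz]
    have k3 : ({y} ∪ insert z T : Finset (Fin p)).card = T.card + 2 := by
      have e : ({y} ∪ insert z T : Finset (Fin p)) = insert y (insert z T) := by
        ext i
        simp only [mem_union, mem_insert, mem_singleton]
      rw [e, card_insert_of_notMem hy, card_insert_of_notMem hz]
    have k4 : (insert z T).card = T.card + 1 := card_insert_of_notMem hz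
    have k5 : ({x} ∪ {y} ∪ T : Finset (Fin p)).card = T.card + 2 := by
      have e : ({x} ∪ {y} ∪ T : Finset (Fin p)) = insert x (insert y T) := by
        ext; simp
      rw [e, card_insert_of_notMem (by simp [hxy, hxT]), card_insert_of_notMem hyT]
    have k6 : ({x} ∪ T : Finset (Fin p)).card = T.card + 1 := by
      have e : ({x} ∪ T : Finset (Fin p)) = insert x T := by
        ext; simp
      rw [e, card_insert_of_notMem hxT]
    have k7 : ({y} ∪ T : Finset (Fin p)).card = T.card + 1 := by
      have e : ({y} ∪ T : Finset (Fin p)) = insert y T := by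
        ext; simp
      rw [e, card_insert_of_notMem hyT]
    have a1 := abs_le.1 (h ({x} ∪ {y} ∪ insert z T))
    have a2 := abs_le.1 (h ({x} ∪ insert z T))
    have a3 := abs_le.1 (h ({y} ∪ insert z T))
    have a4 := abs_le.1 (h (insert z T))
    have a5 := abs_le.1 (h ({x} ∪ {y} ∪ T))
    have a6 := abs_le.1 (h ({x} ∪ T))
    have a7 := abs_le.1 (h ({y} ∪ T))
    have a8 := abs_le.1 (h T)
    rw [k1] at a1
    rw [k2] at a2
    rw [k3] at a3
    rw [k4] at a4
    rw [k5] at a5
    rw [k6] at a6
    rw [k7] at a7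
    push_cast at a1 a2 a3 a4 a5 a6 a7
    unfold E
    set t : ℝ := (T.card : ℝ)
    set q : ℝ := (p : ℝ)
    nlinarith [a1.1, a1.2, a2.1, a2.2, a3.1, a3.2, a4.1, a4.2, a5.1, a5.2, a6.1, a6.2, a7.1, a7.2,
      a8.1, a8.2]
  intro x y T T' hxy hT hx hy
  rw [fdeg_eq, fdeg_eq]
  have main : ∀ (k : ℕ) (T T' : Finset (Fin p)), (T' \ T).card = k → T ⊆ T' → x ∉ T' → y ∉ T' →
      E c {x} {y} T' ≤ E c {x} {y} T := by
    intro k
    induction k with
    | zero =>
      intro T T' hk hT _ _
      rw [card_eq_zero, sdiff_eq_empty_iff_subset] at hk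
      rw [Subset.antisymm hT hk]
    | succ k ih =>
      intro T T' hk hT hx hy
      obtain ⟨z, hz⟩ := card_pos.1 (show 0 < (T' \ T).card by omega)
      rw [mem_sdiff] at hz
      have hins : insert z T ⊆ T' := insert_subset hz.1 hT
      have h1 := ih (insert z T) T' (by
        have e : T' \ insert z T = (T' \ T).erase z := by
          ext a
          simp only [mem_sdiff, mem_insert, mem_erase]
          tauto
        rw [e, card_erase_of_mem (mem_sdiff.2 hz)]
        omega) hins hx hy
      exact h1.trans (key x y z T hxy hz.2 (fun h' => hx (hins h')) (fun h' => hy (hins h')))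
  have := main _ T T' rfl hT hx hy
  linarith

/-- **Main theorem.** Let `D = ∑ c S • δ_S` be a divisor on `M̄_{0,p+1}`.
1. If the games of `HasCores` have cores, then `D` has nonnegative degree on every curve in every
   stratum: `D` is nef.
2. This is the case if, for all marks `x ≠ y`, the degree of `D` on the F-curve
   `x | y | T | (the rest, with ∞)` does not decrease when marks are moved from the part of `∞`
   to `T`.
3. The divisors in 2 form a full-dimensional cone: it contains a neighbourhood of the divisor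
   with the coefficients `|S| (|S| - 1) (p - |S|)`. -/
theorem result :
    ∀ (p : ℕ) (c : Finset (Fin p) → ℝ), IsDivisor c →
      (HasCores c → IsNef c) ∧
      (FMonotone c → HasCores c ∧ IsNef c) ∧
      ((∀ S : Finset (Fin p), |c S - S.card * (S.card - 1) * (p - S.card)| ≤ 3 / 4) →
        FMonotone c) :=
  fun _ _ hc => ⟨nef_of_cores hc,
    fun h => ⟨cores_of_monotone hc h, nef_of_cores hc (cores_of_monotone hc h)⟩,
    monotone_near⟩

end Pool.Agent.Results.MP_23e236_ag.MonotoneFDegrees
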