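import Pool.Agent.TH781.FC.Motion4
import Pool.Agent.TH781.FC.Numeric4

set_option autoImplicit false

/-!
# F-nef divisors on `M̄_{0,n}` and curves on which all marks but one move linearly

The marks are `0, …, p-1` (the type `Fin p`) and `∞`, so `n = p + 1`.  The boundary divisors of
`M̄_{0,n}` are the `δ_S`, `S` a set of marks different from `∞` with `2 ≤ |S| < p` (`δ_S`
separates `S` from the other marks).
-/

namespace Pool.Agent.Results.MP_23e236_ag.OneNonlinearMark

open Finset Polynomial

variable {p : ℕ}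

/-- `c` is a family of coefficients: it stands for the divisor `∑ c S • δ_S`, the sum over the
`S` with `2 ≤ |S| < p`; it vanishes on the sets that give no boundary divisor. -/
def IsDivisor (c : Finset (Fin p) → ℝ) : Prop :=
  (∀ S : Finset (Fin p), S.card ≤ 1 → c S = 0) ∧ c univ = 0

/-- `∑ c S • δ_S` has nonnegative degree on every F-curve: the F-curve of the partition
`A, B, C, (the rest, with ∞)` of the marks has degree `1` on `δ_(A∪B), δ_(A∪C), δ_(B∪C)`, degree
`-1` on `δ_A, δ_B, δ_C, δ_(A∪B∪C)` (those of them that exist) and `0` on the others. -/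
def FNef (c : Finset (Fin p) → ℝ) : Prop :=
  ∀ A B C : Finset (Fin p), A.Nonempty → B.Nonempty → C.Nonempty →
    Disjoint A B → Disjoint A C → Disjoint B C →
    c A + c B + c C + c (A ∪ B ∪ C) ≤ c (A ∪ B) + c (A ∪ C) + c (B ∪ C)

/-- `m S` are the intersection numbers `C · δ_S` of a curve `C` that is not contained in the
boundary, and `d = C · ψ_∞`: all `m S ≥ 0`, and for all marks `i ≠ j` different from `∞`
`ψ_∞ = ∑ δ_S`, the sum over the `S` containing `i` and `j`. -/
def IsCurve (m : Finset (Fin p) → ℕ) (d : ℕ) : Prop :=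
  (∀ S : Finset (Fin p), S.card ≤ 1 → m S = 0) ∧ m univ = 0 ∧
    ∀ i j : Fin p, i ≠ j →
      ∑ S ∈ univ.filter (fun S : Finset (Fin p) => i ∈ S ∧ j ∈ S), m S = d

/-- The degree of `∑ c S • δ_S` on the curve. -/
def degree (c : Finset (Fin p) → ℝ) (m : Finset (Fin p) → ℕ) : ℝ :=
  ∑ S : Finset (Fin p), c S * m S

/-- Two collisions that share two marks different from `z` contain the same marks different from
`z`, unless one of them contains all marks different from `z`. -/
def Share (m : Finset (Fin p) → ℕ) (z : Fin p) : Prop :=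
  ∀ S T : Finset (Fin p), 0 < m S → 0 < m T → S.erase z ≠ univ.erase z →
    T.erase z ≠ univ.erase z → 2 ≤ ((S ∩ T).erase z).card → S.erase z = T.erase z

/-- Two collisions with at least three marks different from `z` each that share a mark different
from `z` contain the same marks different from `z`, unless one of them contains all marks different
from `z`. -/
def Big (m : Finset (Fin p) → ℕ) (z : Fin p) : Prop :=
  ∀ S T : Finset (Fin p), 0 < m S → 0 < m T → S.erase z ≠ univ.erase z →
    T.erase z ≠ univ.erase z → 3 ≤ (S.erase z).card → 3 ≤ (T.erase z).card →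
    ((S ∩ T).erase z).Nonempty → S.erase z = T.erase z

/-- The elements of the list `t` with the property `P` are consecutive. -/
def Consecutive (P : Fin p → Prop) (t : List (Fin p)) : Prop :=
  ∃ a q b : List (Fin p), t = a ++ q ++ b ∧ ∀ w, w ∈ q ↔ P w ∧ w ∈ t

/-- `z` takes part in at most `d + 2 ⌊(d - 1) / e⌋` collisions (with multiplicities) with at least
two other marks. -/
def Few (m : Finset (Fin p) → ℕ) (d e : ℕ) (z : Fin p) : Prop :=
  ∑ S ∈ univ.filter (fun S : Finset (Fin p) => z ∈ S ∧ 3 ≤ S.card), m S ≤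
    d + 2 * ((d - 1) / e)

/-- There is a set `T` of marks different from `z` such that every mark `y ≠ z` outside `T` takes
part in at most `r` collisions (with multiplicities) with `z` and a third mark that avoid `T`,
`r + e |T| ≤ d`, and
* `r ≤ e + 1`, or
* the marks `≠ z` outside `T` can be listed in a list `u ++ v` such that (the marks are read from
  the last one to the first one) every mark of `u` takes part in at most `e` collisions (with
  multiplicities) with `z` and an earlier mark that avoid `T`, and for every mark `y` of `v` and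
  every collision through `y` (that does not contain all marks `≠ z`) the earlier marks of the
  collision are consecutive in `v`. -/
def Ordered (m : Finset (Fin p) → ℕ) (d e : ℕ) (z : Fin p) : Prop :=
  ∃ (T : Finset (Fin p)) (r : ℕ), z ∉ T ∧ r + e * T.card ≤ d ∧
    (∀ y : Fin p, y ≠ z → y ∉ T → ∑ S ∈ univ.filter (fun S : Finset (Fin p) =>
      y ∈ S ∧ z ∈ S ∧ 3 ≤ S.card ∧ Disjoint S T), m S ≤ r) ∧
    (r ≤ e + 1 ∨ ∃ u v : List (Fin p), (u ++ v).Nodup ∧ (∀ w, w ∈ u ++ v ↔ w ≠ z ∧ w ∉ T) ∧
      (∀ (y : Fin p) (t : List (Fin p)), y :: t <:+ v → ∀ S : Finset (Fin p), 0 < m S →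
        S.erase z ≠ univ.erase z → y ∈ S → Consecutive (fun w => w ∈ S) t) ∧
      (∀ (y : Fin p) (t : List (Fin p)), y :: t <:+ u →
        ∑ S ∈ univ.filter (fun S : Finset (Fin p) =>
          y ∈ S ∧ z ∈ S ∧ (∃ w ∈ t ++ v, w ∈ S) ∧ Disjoint S T), m S ≤ e))

/-- The marks different from `z` collide `d - e` times and one of the conditions `Few`, `Big`,
`Ordered` holds. -/
def Good (m : Finset (Fin p) → ℕ) (d : ℕ) (z : Fin p) : Prop :=
  ∃ e : ℕ, m (univ.erase z) + e = d ∧ (Few m d e z ∨ Big m z ∨ Ordered m d e z)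

/-- The lines `y = a i + b i * x`, `y = a j + b j * x`, `y = a l + b l * x` (different from each
other) have a common point, possibly at infinity. -/
def Concurrent {k : Type} [Field k] (a b : Fin p → k) (i j l : Fin p) : Prop :=
  (a i - a j) * (b i - b l) = (a i - a l) * (b i - b j)

/-- Each of the lines `y = a i + b i * x`, `i ≠ z`, contains at most one point (possibly at
infinity) in which at least three of these lines meet. -/
def OnePoint {k : Type} [Field k] (a b : Fin p → k) (z : Fin p) : Prop :=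
  ∀ i j l j' l' : Fin p, i ≠ z → j ≠ z → l ≠ z → j' ≠ z → l' ≠ z → i ≠ j → i ≠ l → j ≠ l →
    i ≠ j' → i ≠ l' → j' ≠ l' → Concurrent a b i j l → Concurrent a b i j' l' → j ≠ j' →
    Concurrent a b i j j'

/-- The lines `y = a i + b i * x`, `i ≠ z`, can be listed such that for each of them and each
point of it (possibly at infinity) the lines through the point that follow it are consecutive. -/
def Listed {k : Type} [Field k] (a b : Fin p → k) (z : Fin p) : Prop :=
  ∃ l : List (Fin p), l.Nodup ∧ (∀ w, w ∈ l ↔ w ≠ z) ∧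
    ∀ (y : Fin p) (t : List (Fin p)), y :: t <:+ l → ∀ i ∈ t, Consecutive (Concurrent a b y i) t

/-- The marks `i ≠ ∞` move on the line by the polynomials `x i` of degree at most `d`, the time
is a point `τ` of the projective line (`none` is the point at infinity, where the positions are
rescaled by `t ^ d`).  This is the order of vanishing of the difference of the positions of `i`
and `j` at the time `τ`. -/
noncomputable def contact {k : Type} [Field k] (d : ℕ) (x : Fin p → k[X]) (τ : Option k)
    (i j : Fin p) : ℕ :=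
  match τ with
  | none => d - (x i - x j).natDegree
  | some t => (x i - x j).rootMultiplicity t

/-- The intersection number with `δ_S` of the curve `t ↦ ((x i)(t))_i, ∞`: the number of pairs
`(τ, r)`, `r ≥ 1`, such that `S` is one of the classes of marks whose mutual contacts at `τ` are
at least `r`. -/
noncomputable def intersection {k : Type} [Field k] (d : ℕ) (x : Fin p → k[X])
    (S : Finset (Fin p)) : ℕ :=
  Set.ncard {q : Option k × ℕ | 1 ≤ q.2 ∧
    ∃ i ∈ S, ∀ j, j ∈ S ↔ (j = i ∨ q.2 ≤ contact d x q.1 i j)}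

/-- The intersection numbers with the boundary divisors. -/
noncomputable def boundary {k : Type} [Field k] (d : ℕ) (x : Fin p → k[X])
    (S : Finset (Fin p)) : ℕ :=
  if 2 ≤ S.card ∧ S.card < p then intersection d x S else 0

/-! ### The change of gauge -/

/-- Sum of `c` over ordered pairs. -/
def X (c : Finset (Fin p) → ℝ) (A B : Finset (Fin p)) : ℝ := ∑ i ∈ A, ∑ j ∈ B, c {i, j}

lemma X_comm (c : Finset (Fin p) → ℝ) (A B : Finset (Fin p)) : X c A B = X c B A := by
  unfold X
  rw [sum_comm]
  refine sum_congr rfl fun i _ => sum_congr rfl fun j _ => ?_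
  rw [pair_comm]

lemma X_union_left (c : Finset (Fin p) → ℝ) {A B : Finset (Fin p)} (h : Disjoint A B)
    (E : Finset (Fin p)) : X c (A ∪ B) E = X c A E + X c B E := by
  unfold X
  rw [sum_union h]

lemma X_union_right (c : Finset (Fin p) → ℝ) {A B : Finset (Fin p)} (h : Disjoint A B)
    (E : Finset (Fin p)) : X c E (A ∪ B) = X c E A + X c E B := by
  rw [X_comm, X_union_left c h, X_comm c A, X_comm c B]

/-- The divisor in the basis `ψ_∞`, `δ_S` (`|S| ≥ 3`), up to sign. -/
noncomputable def H (c : Finset (Fin p) → ℝ) (S : Finset (Fin p)) : ℝ := X c S S / 2 - c S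

lemma H_small {c : Finset (Fin p) → ℝ} (hc : IsDivisor c) (S : Finset (Fin p))
    (hS : S.card ≤ 2) : H c S = 0 := by
  unfold H X
  have h1 : S.card = 0 ∨ S.card = 1 ∨ S.card = 2 := by omega
  rcases h1 with h1 | h1 | h1
  · rw [card_eq_zero] at h1
    subst h1
    simp [hc.1 ∅ (by simp)]
  · rw [card_eq_one] at h1
    obtain ⟨i, rfl⟩ := h1
    simp [hc.1 {i} (by simp)]
  · rw [card_eq_two] at h1
    obtain ⟨i, j, hij, rfl⟩ := h1
    have e1 : c {i, i} = 0 := hc.1 _ (by simp)
    have e2 : c {j, j} = 0 := hc.1 _ (by simp)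
    rw [sum_pair hij, sum_pair hij, sum_pair hij, e1, e2, pair_comm j i]
    ring

lemma H_F {c : Finset (Fin p) → ℝ} (hF : FNef c) (A B C : Finset (Fin p)) (hA : A.Nonempty)
    (hB : B.Nonempty) (hC : C.Nonempty) (hAB : Disjoint A B) (hAC : Disjoint A C)
    (hBC : Disjoint B C) :
    H c (A ∪ B) + H c (A ∪ C) + H c (B ∪ C) ≤ H c (A ∪ B ∪ C) + H c A + H c B + H c C := by
  have h1 := hF A B C hA hB hC hAB hAC hBC
  have hABC : Disjoint (A ∪ B) C := disjoint_union_left.2 ⟨hAC, hBC⟩
  unfold H
  rw [X_union_left c hAB, X_union_right c hAB, X_union_right c hAB, X_union_left c hAC,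
    X_union_right c hAC, X_union_right c hAC, X_union_left c hBC, X_union_right c hBC,
    X_union_right c hBC, X_union_left c hABC, X_union_right c hABC, X_union_right c hABC,
    X_union_left c hAB, X_union_left c hAB, X_union_right c hAB, X_union_right c hAB,
    X_union_right c hAB, X_comm c B A, X_comm c C A, X_comm c C B]
  linarith

lemma degree_eq {c : Finset (Fin p) → ℝ} (hc : IsDivisor c) {m : Finset (Fin p) → ℕ} {d : ℕ}
    (hm : IsCurve m d) : degree c m = d * H c univ - ∑ S : Finset (Fin p), m S * H c S := by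
  have h1 : ∑ S : Finset (Fin p), (m S : ℝ) * X c S S = d * X c univ univ := by
    have h2 : ∀ S : Finset (Fin p), (m S : ℝ) * X c S S =
        ∑ i : Fin p, ∑ j : Fin p, if i ∈ S ∧ j ∈ S then c {i, j} * m S else 0 := by
      intro S
      unfold X
      rw [mul_sum]
      rw [← sum_subset (subset_univ S)]
      · refine sum_congr rfl fun i hi => ?_
        rw [mul_sum, ← sum_subset (subset_univ S)]
        · refine sum_congr rfl fun j hj => ?_
          rw [if_pos ⟨hi, hj⟩, mul_comm]
        · intro j _ hj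
          rw [if_neg (fun h => hj h.2)]
      · intro i _ hi
        refine sum_eq_zero fun j _ => ?_
        rw [if_neg (fun h => hi h.1)]
    rw [sum_congr rfl fun S _ => h2 S, sum_comm]
    unfold X
    rw [mul_sum]
    refine sum_congr rfl fun i _ => ?_
    rw [sum_comm, mul_sum]
    refine sum_congr rfl fun j _ => ?_
    by_cases hij : i = j
    · subst hij
      have e1 : c {i, i} = 0 := hc.1 _ (by simp)
      rw [e1]
      simp
    · rw [← sum_filter, ← mul_sum, mul_comm]
      congr 1
      have := hm.2.2 i j hij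
      rw [← this]
      push_cast
      rfl
  unfold degree
  have h3 : ∀ S : Finset (Fin p), c S * m S = (m S * X c S S) / 2 - m S * H c S := by
    intro S
    unfold H
    ring
  rw [sum_congr rfl fun S _ => h3 S, sum_sub_distrib, ← sum_div, h1]
  have h4 : H c univ = X c univ univ / 2 := by
    unfold H
    rw [hc.2]; ring
  rw [h4]
  ring

/-! ### Nonnegativity -/

theorem general {c : Finset (Fin p) → ℝ} (hc : IsDivisor c) (hF : FNef c)
    {m : Finset (Fin p) → ℕ} {d : ℕ} (hm : IsCurve m d) (z : Fin p) (hsh : Share m z)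
    {e r : ℕ} (hd : m (univ.erase z) + e = d) (T : Finset (Fin p)) (hzT : z ∉ T)
    (hr : r ≤ e + 1) (hrd : r + e * T.card ≤ d)
    (hdeg : ∀ y : Fin p, y ≠ z → y ∉ T →
      ∑ S ∈ univ.filter (fun S : Finset (Fin p) =>
        y ∈ S ∧ z ∈ S ∧ 3 ≤ S.card ∧ Disjoint S T), m S ≤ r) : 0 ≤ degree c m := by
  rw [degree_eq hc hm]
  have h1 := Pool.Agent.TH781.FC.main (h := H c) (H_small hc) (H_F hF) hm.1 hm.2.1 hm.2.2 z
    hsh hd T hzT hr hrd hdeg
  linarith

/-- If all marks `≠ z` collide with multiplicity at least `d - 1`, then `Share` holds. -/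
lemma share_of_linear {m : Finset (Fin p) → ℕ} {d : ℕ} (hm : IsCurve m d) {z : Fin p}
    (h : d ≤ m (univ.erase z) + 1) : Share m z := by
  intro S T hS hT hSL hTL hcard
  obtain ⟨i, hi, j, hj, hij⟩ := one_lt_card.1 (show 1 < ((S ∩ T).erase z).card by omega)
  rw [mem_erase, mem_inter] at hi hj
  by_contra hne
  have hST : S ≠ T := by rintro rfl; exact hne rfl
  have hS' : S ≠ univ.erase z := by
    rintro rfl
    exact hSL (by simp)
  have hT' : T ≠ univ.erase z := by
    rintro rfl
    exact hTL (by simp)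
  have h1 := hm.2.2 i j hij
  have h2 : ∑ S ∈ ({univ.erase z, S, T} : Finset (Finset (Fin p))), m S ≤
      ∑ S ∈ univ.filter (fun S : Finset (Fin p) => i ∈ S ∧ j ∈ S), m S := by
    refine sum_le_sum_of_subset ?_
    intro E hE
    rw [mem_insert, mem_insert, mem_singleton] at hE
    rw [mem_filter]
    refine ⟨mem_univ _, ?_⟩
    rcases hE with rfl | rfl | rfl
    · exact ⟨mem_erase.2 ⟨hi.1, mem_univ _⟩, mem_erase.2 ⟨hj.1, mem_univ _⟩⟩
    · exact ⟨hi.2.1, hj.2.1⟩
    · exact ⟨hi.2.2, hj.2.2⟩
  rw [sum_insert, sum_pair hST] at h2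
  · omega
  · rw [mem_insert, mem_singleton]
    push Not
    exact ⟨hS'.symm, hT'.symm⟩

/-- If the marks `≠ z` are always together, the other collisions have at most two marks. -/
lemma rigid {m : Finset (Fin p) → ℕ} {d : ℕ} (hm : IsCurve m d) {z : Fin p}
    (h : m (univ.erase z) = d) {S : Finset (Fin p)} {i j : Fin p} (hi : i ≠ z) (hj : j ≠ z)
    (hij : i ≠ j) (hiS : i ∈ S) (hjS : j ∈ S) (hS : S ≠ univ.erase z) : m S = 0 := by
  have h1 := hm.2.2 i j hij
  have h2 : ∑ S ∈ ({univ.erase z, S} : Finset (Finset (Fin p))), m S ≤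
      ∑ S ∈ univ.filter (fun S : Finset (Fin p) => i ∈ S ∧ j ∈ S), m S := by
    refine sum_le_sum_of_subset ?_
    intro E hE
    rw [mem_insert, mem_singleton] at hE
    rw [mem_filter]
    refine ⟨mem_univ _, ?_⟩
    rcases hE with rfl | rfl
    · exact ⟨mem_erase.2 ⟨hi, mem_univ _⟩, mem_erase.2 ⟨hj, mem_univ _⟩⟩
    · exact ⟨hiS, hjS⟩
  rw [sum_pair hS.symm] at h2
  omega

theorem rigid_case {c : Finset (Fin p) → ℝ} (hc : IsDivisor c) (hF : FNef c)
    {m : Finset (Fin p) → ℕ} {d : ℕ} (hm : IsCurve m d) (z : Fin p)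
    (h : m (univ.erase z) = d) : 0 ≤ degree c m := by
  refine general hc hF hm z ?_ (e := 0) (r := 0) (by omega) ∅ (notMem_empty _) (by omega)
    (by omega) ?_
  · intro S T hS _ hSL _ hcard
    exfalso
    obtain ⟨i, hi, j, hj, hij⟩ := one_lt_card.1 (show 1 < ((S ∩ T).erase z).card by omega)
    rw [mem_erase, mem_inter] at hi hj
    have := rigid hm h hi.1 hj.1 hij hi.2.1 hj.2.1 (by
      rintro rfl
      exact hSL (by simp))
    omega
  · intro y hy _
    refine (sum_eq_zero fun S hS => ?_).le
    rw [mem_filter] at hS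
    obtain ⟨_, hyS, hzS, h3, _⟩ := hS
    have h4 : 1 < (S.erase z).card := by
      rw [card_erase_of_mem hzS]
      omega
    obtain ⟨w, hw, hwy⟩ := exists_mem_ne h4 y
    rw [mem_erase] at hw
    refine rigid hm h hy hw.1 hwy.symm hyS hw.2 ?_
    rintro rfl
    exact (mem_erase.1 hzS).1 rfl

theorem few {c : Finset (Fin p) → ℝ} (hc : IsDivisor c) (hF : FNef c)
    {m : Finset (Fin p) → ℕ} {d : ℕ} (hm : IsCurve m d) (z : Fin p) (hsh : Share m z)
    (h : m (univ.erase z) ≤ 1) : 0 ≤ degree c m := by
  by_cases hd0 : d = 0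
  · -- nothing moves
    have h0 : ∀ S : Finset (Fin p), m S = 0 := by
      intro S
      by_cases hS : S.card ≤ 1
      · exact hm.1 S hS
      · obtain ⟨i, hi, j, hj, hij⟩ := one_lt_card.1 (show 1 < S.card by omega)
        have h1 := hm.2.2 i j hij
        rw [hd0] at h1
        exact (sum_eq_zero_iff.1 h1) S (mem_filter.2 ⟨mem_univ _, hi, hj⟩)
    unfold degree
    rw [sum_eq_zero fun S _ => by rw [h0 S]; simp]
  have hle : m (univ.erase z) ≤ d := by omega
  refine general hc hF hm z hsh (e := d - m (univ.erase z)) (r := d) (by omega) ∅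
    (notMem_empty _) (by omega) (by simp) ?_
  intro y hy _
  rw [← hm.2.2 y z hy]
  refine sum_le_sum_of_subset ?_
  intro S hS
  rw [mem_filter] at hS ⊢
  exact ⟨mem_univ _, hS.2.1, hS.2.2.1⟩

theorem conic {c : Finset (Fin p) → ℝ} (hc : IsDivisor c) (hF : FNef c)
    {m : Finset (Fin p) → ℕ} (hm : IsCurve m 2) (z : Fin p)
    (h : 1 ≤ m (univ.erase z)) : 0 ≤ degree c m := by
  by_cases h1 : m (univ.erase z) ≤ 1
  · exact few hc hF hm z (share_of_linear hm (by omega)) h1
  · -- the marks `≠ z` are at least two, hence `m ≤ 2`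
    refine rigid_case hc hF hm z ?_
    have hcard : ¬ (univ.erase z : Finset (Fin p)).card ≤ 1 := by
      intro h'
      have := hm.1 _ h'
      omega
    obtain ⟨i, hi, j, hj, hij⟩ := one_lt_card.1
      (show 1 < (univ.erase z : Finset (Fin p)).card by omega)
    have h2 := hm.2.2 i j hij
    have h3 := single_le_sum (f := m) (s := univ.filter (fun S : Finset (Fin p) => i ∈ S ∧ j ∈ S))
      (fun _ _ => Nat.zero_le _) (mem_filter.2 ⟨mem_univ (univ.erase z), hi, hj⟩)
    omega

theorem disjoint_large {c : Finset (Fin p) → ℝ} (hc : IsDivisor c) (hF : FNef c)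
    {m : Finset (Fin p) → ℕ} {d : ℕ} (hm : IsCurve m d) (z : Fin p) (hsh : Share m z)
    (hbig : Big m z) : 0 ≤ degree c m := by
  have hle : m (univ.erase z) ≤ d := by
    by_cases hcard : (univ.erase z : Finset (Fin p)).card ≤ 1
    · rw [hm.1 _ hcard]
      exact Nat.zero_le _
    · obtain ⟨i, hi, j, hj, hij⟩ := one_lt_card.1
        (show 1 < (univ.erase z : Finset (Fin p)).card by omega)
      rw [← hm.2.2 i j hij]
      exact single_le_sum (f := m)
        (s := univ.filter (fun S : Finset (Fin p) => i ∈ S ∧ j ∈ S))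
        (fun _ _ => Nat.zero_le _) (mem_filter.2 ⟨mem_univ (univ.erase z), hi, hj⟩)
  rw [degree_eq hc hm]
  have h1 := Pool.Agent.TH781.FC.main2 (h := H c) (H_small hc) (H_F hF) hm.1 hm.2.1 hm.2.2 z
    hsh (e := d - m (univ.erase z)) (by omega) hbig
  linarith

/-- The greedy choice of the set `T`. -/
lemma greedy {m : Finset (Fin p) → ℕ} {e ρ : ℕ} {z : Fin p} :
    ∀ (q : ℕ) (T : Finset (Fin p)), z ∉ T →
      ∑ S ∈ univ.filter (fun S : Finset (Fin p) => z ∈ S ∧ 3 ≤ S.card ∧ Disjoint S T), m S ≤
        ρ + (e + 2) * q →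
      ∃ (T' : Finset (Fin p)) (r : ℕ), z ∉ T' ∧
        (r = e + 1 ∧ T'.card + 1 ≤ T.card + q ∨ r = ρ ∧ T'.card ≤ T.card + q) ∧
        ∀ y : Fin p, y ≠ z → y ∉ T' → ∑ S ∈ univ.filter (fun S : Finset (Fin p) =>
          y ∈ S ∧ z ∈ S ∧ 3 ≤ S.card ∧ Disjoint S T'), m S ≤ r := by
  intro q
  induction q with
  | zero =>
    intro T hz hN
    refine ⟨T, ρ, hz, Or.inr ⟨rfl, by omega⟩, fun y _ _ => ?_⟩
    have h1 : ∑ S ∈ univ.filter (fun S : Finset (Fin p) =>
        y ∈ S ∧ z ∈ S ∧ 3 ≤ S.card ∧ Disjoint S T), m S ≤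
        ∑ S ∈ univ.filter (fun S : Finset (Fin p) => z ∈ S ∧ 3 ≤ S.card ∧ Disjoint S T), m S := by
      refine sum_le_sum_of_subset ?_
      intro S hS
      rw [mem_filter] at hS ⊢
      exact ⟨hS.1, hS.2.2⟩
    omega
  | succ q ih =>
    intro T hz hN
    by_cases hex : ∃ y : Fin p, y ≠ z ∧ y ∉ T ∧ e + 2 ≤ ∑ S ∈ univ.filter
        (fun S : Finset (Fin p) => y ∈ S ∧ z ∈ S ∧ 3 ≤ S.card ∧ Disjoint S T), m S
    · obtain ⟨y, hyz, hyT, hy⟩ := hex
      have hz' : z ∉ insert y T := by
        rw [mem_insert]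
        rintro (h' | h')
        · exact hyz h'.symm
        · exact hz h'
      have h1 : ∑ S ∈ univ.filter (fun S : Finset (Fin p) =>
          z ∈ S ∧ 3 ≤ S.card ∧ Disjoint S T), m S =
          ∑ S ∈ univ.filter (fun S : Finset (Fin p) =>
            y ∈ S ∧ z ∈ S ∧ 3 ≤ S.card ∧ Disjoint S T), m S +
          ∑ S ∈ univ.filter (fun S : Finset (Fin p) =>
            z ∈ S ∧ 3 ≤ S.card ∧ Disjoint S (insert y T)), m S := by
        rw [sum_filter, sum_filter, sum_filter, ← sum_add_distrib]
        refine sum_congr rfl fun S _ => ?_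
        by_cases hyS : y ∈ S
        · simp [hyS, disjoint_insert_right]
        · simp [hyS, disjoint_insert_right]
      obtain ⟨T', r, h3, h4, h5⟩ := ih (insert y T) hz' (by
        have h6 : (e + 2) * (q + 1) = (e + 2) * q + (e + 2) := by ring
        omega)
      refine ⟨T', r, h3, ?_, h5⟩
      rw [card_insert_of_notMem hyT] at h4
      omega
    · refine ⟨T, e + 1, hz, Or.inl ⟨rfl, by omega⟩, fun y hyz hyT => ?_⟩
      by_contra h'
      exact hex ⟨y, hyz, hyT, by omega⟩

theorem few_collisions {c : Finset (Fin p) → ℝ} (hc : IsDivisor c) (hF : FNef c)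
    {m : Finset (Fin p) → ℕ} {d : ℕ} (hm : IsCurve m d) (z : Fin p) (hsh : Share m z)
    {e : ℕ} (hd : m (univ.erase z) + e = d) (h : Few m d e z) : 0 ≤ degree c m := by
  rcases Nat.eq_zero_or_pos e with he | he
  · exact rigid_case hc hF hm z (by omega)
  have h1 : e * ((d - 1) / e) ≤ d - 1 := Nat.mul_div_le _ _
  have h2 : d - 1 < e * ((d - 1) / e) + e := by
    have := Nat.lt_mul_div_succ (d - 1) he
    rwa [Nat.mul_add, Nat.mul_one] at this
  obtain ⟨T, r, hzT, hr, hdeg⟩ := greedy (m := m) (e := e) (ρ := d - e * ((d - 1) / e)) (z := z)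
    ((d - 1) / e) ∅ (notMem_empty _) (by
      have h3 : (e + 2) * ((d - 1) / e) = e * ((d - 1) / e) + 2 * ((d - 1) / e) := by ring
      unfold Few at h
      simp only [disjoint_empty_right, and_true]
      omega)
  rw [card_empty, zero_add] at hr
  rcases hr with ⟨hr, hT⟩ | ⟨hr, hT⟩
  · refine general hc hF hm z hsh hd T hzT (r := r) (by omega) ?_ hdeg
    have h4 := Nat.mul_le_mul_left e hT
    have h5 : e * (T.card + 1) = e * T.card + e := by ring
    omega
  · refine general hc hF hm z hsh hd T hzT (r := r) (by omega) ?_ hdeg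
    have h4 := Nat.mul_le_mul_left e hT
    omega

theorem good {c : Finset (Fin p) → ℝ} (hc : IsDivisor c) (hF : FNef c)
    {m : Finset (Fin p) → ℕ} {d : ℕ} (hm : IsCurve m d) (z : Fin p) (hsh : Share m z)
    (h : Good m d z) : 0 ≤ degree c m := by
  obtain ⟨e, hd, hfew | hbig | ⟨T, r, hzT, hrd, hdeg, hr | ⟨u, v, hnd, hmem, hcon, hsm⟩⟩⟩ := h
  · exact few_collisions hc hF hm z hsh hd hfew
  · exact disjoint_large hc hF hm z hsh hbig
  · exact general hc hF hm z hsh hd T hzT hr hrd hdeg
  · rw [degree_eq hc hm]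
    have h1 := Pool.Agent.TH781.FC.main4 (h := H c) (H_small hc) (H_F hF) hm.1 hm.2.1 hm.2.2 z
      hsh hd T hzT hrd hdeg hnd hmem hcon hsm
    linarith

theorem listed {c : Finset (Fin p) → ℝ} (hc : IsDivisor c) (hF : FNef c)
    {m : Finset (Fin p) → ℕ} {d : ℕ} (hm : IsCurve m d) (z : Fin p) (hsh : Share m z)
    {l : List (Fin p)} (hnd : l.Nodup) (hmem : ∀ w, w ∈ l ↔ w ≠ z)
    (hcon : ∀ (y : Fin p) (t : List (Fin p)), y :: t <:+ l → ∀ S : Finset (Fin p), 0 < m S →
      S.erase z ≠ univ.erase z → y ∈ S → Consecutive (fun w => w ∈ S) t) : 0 ≤ degree c m := by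
  have hle : m (univ.erase z) ≤ d := by
    by_cases hcard : (univ.erase z : Finset (Fin p)).card ≤ 1
    · rw [hm.1 _ hcard]
      exact Nat.zero_le _
    · obtain ⟨i, hi, j, hj, hij⟩ := one_lt_card.1
        (show 1 < (univ.erase z : Finset (Fin p)).card by omega)
      rw [← hm.2.2 i j hij]
      exact single_le_sum (f := m)
        (s := univ.filter (fun S : Finset (Fin p) => i ∈ S ∧ j ∈ S))
        (fun _ _ => Nat.zero_le _) (mem_filter.2 ⟨mem_univ _, hi, hj⟩)
  refine good hc hF hm z hsh ⟨d - m (univ.erase z), by omega, Or.inr (Or.inr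
    ⟨∅, d, notMem_empty _, by simp, fun y hy _ => ?_, Or.inr ⟨[], l, ?_, ?_, hcon, ?_⟩⟩)⟩
  · rw [← hm.2.2 y z hy]
    refine sum_le_sum_of_subset ?_
    intro S hS
    rw [mem_filter] at hS ⊢
    exact ⟨mem_univ _, hS.2.1, hS.2.2.1⟩
  · rw [List.nil_append]
    exact hnd
  · intro w
    rw [List.nil_append, hmem w]
    simp
  · intro y t h'
    exact absurd (List.suffix_nil.1 h') (List.cons_ne_nil y t)

theorem motion {c : Finset (Fin p) → ℝ} (hc : IsDivisor c) (hF : FNef c)
    {k : Type} [Field k] [IsAlgClosed k] (d : ℕ) (x : Fin p → k[X]) (z : Fin p)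
    (a b : Fin p → k) (φ : k[X]) (hlin : ∀ i, i ≠ z → x i = C (a i) + C (b i) * φ)
    (hd : ∀ i, (x i).natDegree ≤ d)
    (hde : d ≤ φ.natDegree + 1 ∨ OnePoint a b z ∨ Listed a b z ∨ Good (boundary d x) d z)
    (hx : ∀ i j, i ≠ j → x i ≠ x j)
    (h1 : ∀ τ : Option k, ∃ i j, i ≠ j ∧ contact d x τ i j = 0) :
    0 ≤ ∑ S ∈ univ.filter (fun S : Finset (Fin p) => 2 ≤ S.card ∧ S.card < p),
      c S * intersection d x S := by
  have econ : ∀ τ i j, contact d x τ i j = Pool.Agent.TH451.FC.contact d x τ i j := by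
    intro τ i j
    cases τ <;> rfl
  have eint : ∀ S, intersection d x S = Pool.Agent.TH451.FC.inter d x S := by
    intro S
    unfold intersection Pool.Agent.TH451.FC.inter
    simp only [econ]
  have huniv : Pool.Agent.TH451.FC.inter d x univ = 0 := by
    refine Pool.Agent.TH451.FC.inter_eq_zero hx fun τ => ?_
    obtain ⟨i, j, hij, h⟩ := h1 τ
    exact ⟨i, mem_univ _, j, mem_univ _, hij, by rw [← econ]; exact h⟩
  have hm : IsCurve (Pool.Agent.TH781.FC.mult d x) d := by
    refine ⟨?_, ?_, ?_⟩
    · intro S hS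
      unfold Pool.Agent.TH781.FC.mult
      rw [if_neg (by omega)]
    · unfold Pool.Agent.TH781.FC.mult
      rw [if_neg]
      rw [card_univ, Fintype.card_fin]
      omega
    · exact Pool.Agent.TH781.FC.pair hx hd huniv
  have hsh : Share (Pool.Agent.TH781.FC.mult d x) z := Pool.Agent.TH781.FC.share hlin hx
  have h6 : 0 ≤ degree c (Pool.Agent.TH781.FC.mult d x) := by
    rcases hde with hde | hone | ⟨l, hnd, hmem, hl⟩ | hgood
    · rcases Pool.Agent.TH781.FC.at_infinity hlin hx hd hde huniv with h | h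
      · exact few hc hF hm z hsh h
      · exact rigid_case hc hF hm z h
    · exact disjoint_large hc hF hm z hsh (Pool.Agent.TH781.FC.big hlin hx hone)
    · exact listed hc hF hm z hsh hnd hmem
        (Pool.Agent.TH781.FC.contig hlin hx hnd (fun h' => (hmem z).1 h' rfl) hl)
    · refine good hc hF hm z hsh ?_
      have e1 : boundary d x = Pool.Agent.TH781.FC.mult d x := by
        funext S
        unfold boundary Pool.Agent.TH781.FC.mult
        simp only [eint]
      rwa [e1] at hgood
  unfold degree at h6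
  rw [sum_filter]
  refine h6.trans_eq (sum_congr rfl fun S _ => ?_)
  unfold Pool.Agent.TH781.FC.mult
  by_cases h2 : 2 ≤ S.card ∧ S.card < p
  · simp only [if_pos h2, eint]
  · simp only [if_neg h2, Nat.cast_zero, mul_zero]

/-- **Main theorem.** Let `D = ∑ c S • δ_S` be an F-nef divisor on `M̄_{0,p+1}` and let `C` be a
curve class with `C · δ_S = m S ≥ 0` for all boundary divisors and `C · ψ_∞ = d`; `z` is a mark
different from `∞`.
1. If `d = 2` and the marks different from `z` and `∞` collide at least once, then `D · C ≥ 0`.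
2. If the conditions `Share` and `Good` hold, then `D · C ≥ 0` (`d` is arbitrary).
3. `D · C ≥ 0` for every curve `t ↦ ((x i)(t))_i, ∞` over an algebraically closed field on which all
   marks but one move by affine functions `a i + b i φ` of one polynomial `φ` and the last one by
   any polynomial, if one of the following holds: `d ≤ deg φ + 1` bounds all the degrees; each of
   the lines `y = a i + b i x` contains at most one point in which at least three of them meet;
   these lines can be listed such that for each of them and each point of it the lines through the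
   point that follow it are consecutive; the intersection numbers satisfy `Good`. -/
theorem result :
    ∀ (p : ℕ) (c : Finset (Fin p) → ℝ), IsDivisor c → FNef c →
      (∀ (m : Finset (Fin p) → ℕ) (z : Fin p), IsCurve m 2 → 1 ≤ m (univ.erase z) →
        0 ≤ degree c m) ∧
      (∀ (m : Finset (Fin p) → ℕ) (d : ℕ) (z : Fin p), IsCurve m d → Share m z → Good m d z →
        0 ≤ degree c m) ∧
      (∀ (k : Type) [Field k] [IsAlgClosed k] (d : ℕ) (x : Fin p → k[X]) (z : Fin p)
        (a b : Fin p → k) (φ : k[X]), (∀ i, i ≠ z → x i = C (a i) + C (b i) * φ) →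
        (∀ i, (x i).natDegree ≤ d) →
        (d ≤ φ.natDegree + 1 ∨ OnePoint a b z ∨ Listed a b z ∨ Good (boundary d x) d z) →
        (∀ i j, i ≠ j → x i ≠ x j) →
        (∀ τ : Option k, ∃ i j, i ≠ j ∧ contact d x τ i j = 0) →
        0 ≤ ∑ S ∈ univ.filter (fun S : Finset (Fin p) => 2 ≤ S.card ∧ S.card < p),
          c S * intersection d x S) := by
  intro p c hc hF
  refine ⟨?_, ?_, ?_⟩
  · intro m z hm h
    exact conic hc hF hm z h
  · intro m d z hm hsh h
    exact good hc hF hm z hsh h
  · intro k _ _ d x z a b φ hlin hd hde hx h1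
    exact motion hc hF d x z a b φ hlin hd hde hx h1

end Pool.Agent.Results.MP_23e236_ag.OneNonlinearMark
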