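import Pool.Agent.TH451.FC.Motion

set_option autoImplicit false

/-!
# F-nef divisors on `M̄_{0,n}` and curves on which at most three marks collide

The marks are `0, …, p-1` (the type `Fin p`) and `∞`, so `n = p + 1`.  The boundary divisors of
`M̄_{0,n}` are the `δ_S`, `S` a set of marks different from `∞` with `2 ≤ |S| < p` (`δ_S`
separates `S` from the other marks).
-/

namespace Pool.Agent.Results.MP_23e236_ag.TripleCollisions

open Finset Polynomial

variable {p : ℕ}

/-- `c` is a family of coefficients: it stands for the divisor `∑ c S • δ_S`, the sum over the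
`S` with `2 ≤ |S| < p`; it vanishes on the sets that give no boundary divisor. -/
def IsDivisor (c : Finset (Fin p) → ℝ) : Prop :=
  (∀ S : Finset (Fin p), S.card ≤ 1 → c S = 0) ∧ c univ = 0

/-- `∑ c S • δ_S` has nonnegative degree on every F-curve: the F-curve of the partition
`A, B, C, (the rest, with ∞)` of the marks has degree `1` on `δ_(A∪B), δ_(A∪C), δ_(B∪C)`, degree
`-1` on `δ_A, δ_B, δ_C, δ_(A∪B∪C)` (those of them that exist) and `0` on the others. -/
def FNef (c : Finset (Fin p) → ℝ) : Prop :=
  ∀ A B C : Finset (Fin p), A.Nonempty → B.Nonempty → C.Nonempty →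
    Disjoint A B → Disjoint A C → Disjoint B C →
    c A + c B + c C + c (A ∪ B ∪ C) ≤ c (A ∪ B) + c (A ∪ C) + c (B ∪ C)

/-- `m S` are the intersection numbers `C · δ_S` of a curve `C` that is not contained in the
boundary, and `d = C · ψ_∞`: all `m S ≥ 0`, and for all marks `i ≠ j` different from `∞`
`ψ_∞ = ∑ δ_S`, the sum over the `S` containing `i` and `j`. -/
def IsCurve (m : Finset (Fin p) → ℕ) (d : ℕ) : Prop :=
  (∀ S : Finset (Fin p), S.card ≤ 1 → m S = 0) ∧ m univ = 0 ∧
    ∀ i j : Fin p, i ≠ j →
      ∑ S ∈ univ.filter (fun S : Finset (Fin p) => i ∈ S ∧ j ∈ S), m S = d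

/-- The degree of `∑ c S • δ_S` on the curve. -/
def degree (c : Finset (Fin p) → ℝ) (m : Finset (Fin p) → ℕ) : ℝ :=
  ∑ S : Finset (Fin p), c S * m S

/-- For every mark `x` there is a set `Y` of marks such that
* a collision of `x` with at least two other marks, one of them in `Y`, is a collision of three
  marks and the other two marks are both in `Y`;
* the other collisions `S` of `x` with at least two other marks can be coloured with `d` colours
  (a collision of multiplicity `m S` gets `m S` colours) so that no colour is given to two of them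
  that share a further mark. -/
def LinkCond (m : Finset (Fin p) → ℕ) (d : ℕ) : Prop :=
  ∀ x : Fin p, ∃ Y : Finset (Fin p), ∃ col : Finset (Fin p) → Finset (Fin d),
    (∀ S : Finset (Fin p), x ∈ S → 3 ≤ S.card → 0 < m S → ¬ Disjoint (S.erase x) Y →
      S.card = 3 ∧ S.erase x ⊆ Y) ∧
    (∀ S : Finset (Fin p), x ∈ S → 3 ≤ S.card → 0 < m S → Disjoint (S.erase x) Y →
      (col S).card = m S) ∧
    ∀ S T : Finset (Fin p), x ∈ S → x ∈ T → S ≠ T → 3 ≤ S.card → 3 ≤ T.card →
      0 < m S → 0 < m T → Disjoint (S.erase x) Y → Disjoint (T.erase x) Y →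
      ¬ Disjoint (S.erase x) (T.erase x) → Disjoint (col S) (col T)

/-- The marks `i ≠ ∞` move on the line by the polynomials `x i` of degree at most `d`, the time
is a point `τ` of the projective line (`none` is the point at infinity, where the positions are
rescaled by `t ^ d`).  This is the order of vanishing of the difference of the positions of `i`
and `j` at the time `τ`. -/
noncomputable def contact {k : Type} [Field k] (d : ℕ) (x : Fin p → k[X]) (τ : Option k)
    (i j : Fin p) : ℕ :=
  match τ with
  | none => d - (x i - x j).natDegree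
  | some t => (x i - x j).rootMultiplicity t

/-- The intersection number with `δ_S` of the curve `t ↦ ((x i)(t))_i, ∞`: the number of pairs
`(τ, r)`, `r ≥ 1`, such that `S` is one of the classes of marks whose mutual contacts at `τ` are
at least `r`. -/
noncomputable def intersection {k : Type} [Field k] (d : ℕ) (x : Fin p → k[X])
    (S : Finset (Fin p)) : ℕ :=
  Set.ncard {q : Option k × ℕ | 1 ≤ q.2 ∧
    ∃ i ∈ S, ∀ j, j ∈ S ↔ (j = i ∨ q.2 ≤ contact d x q.1 i j)}

/-! ### The change of gauge -/

/-- Sum of `c` over ordered pairs. -/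
def X (c : Finset (Fin p) → ℝ) (A B : Finset (Fin p)) : ℝ := ∑ i ∈ A, ∑ j ∈ B, c {i, j}

lemma X_comm (c : Finset (Fin p) → ℝ) (A B : Finset (Fin p)) : X c A B = X c B A := by
  unfold X
  rw [sum_comm]
  refine sum_congr rfl fun i _ => sum_congr rfl fun j _ => ?_
  rw [pair_comm]

lemma X_union_left (c : Finset (Fin p) → ℝ) {A B : Finset (Fin p)} (h : Disjoint A B)
    (E : Finset (Fin p)) : X c (A ∪ B) E = X c A E + X c B E := by
  unfold X
  rw [sum_union h]

lemma X_union_right (c : Finset (Fin p) → ℝ) {A B : Finset (Fin p)} (h : Disjoint A B)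
    (E : Finset (Fin p)) : X c E (A ∪ B) = X c E A + X c E B := by
  rw [X_comm, X_union_left c h, X_comm c A, X_comm c B]

/-- The divisor in the basis `ψ_∞`, `δ_S` (`|S| ≥ 3`), up to sign. -/
noncomputable def H (c : Finset (Fin p) → ℝ) (S : Finset (Fin p)) : ℝ := X c S S / 2 - c S

lemma H_small {c : Finset (Fin p) → ℝ} (hc : IsDivisor c) (S : Finset (Fin p))
    (hS : S.card ≤ 2) : H c S = 0 := by
  unfold H X
  have h1 : S.card = 0 ∨ S.card = 1 ∨ S.card = 2 := by omega
  rcases h1 with h1 | h1 | h1
  · rw [card_eq_zero] at h1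
    subst h1
    simp [hc.1 ∅ (by simp)]
  · rw [card_eq_one] at h1
    obtain ⟨i, rfl⟩ := h1
    simp [hc.1 {i} (by simp)]
  · rw [card_eq_two] at h1
    obtain ⟨i, j, hij, rfl⟩ := h1
    have e1 : c {i, i} = 0 := hc.1 _ (by simp)
    have e2 : c {j, j} = 0 := hc.1 _ (by simp)
    rw [sum_pair hij, sum_pair hij, sum_pair hij, e1, e2, pair_comm j i]
    ring

lemma H_F {c : Finset (Fin p) → ℝ} (hF : FNef c) (A B C : Finset (Fin p)) (hA : A.Nonempty)
    (hB : B.Nonempty) (hC : C.Nonempty) (hAB : Disjoint A B) (hAC : Disjoint A C)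
    (hBC : Disjoint B C) :
    H c (A ∪ B) + H c (A ∪ C) + H c (B ∪ C) ≤ H c (A ∪ B ∪ C) + H c A + H c B + H c C := by
  have h1 := hF A B C hA hB hC hAB hAC hBC
  have hABC : Disjoint (A ∪ B) C := disjoint_union_left.2 ⟨hAC, hBC⟩
  unfold H
  rw [X_union_left c hAB, X_union_right c hAB, X_union_right c hAB, X_union_left c hAC,
    X_union_right c hAC, X_union_right c hAC, X_union_left c hBC, X_union_right c hBC,
    X_union_right c hBC, X_union_left c hABC, X_union_right c hABC, X_union_right c hABC,
    X_union_left c hAB, X_union_left c hAB, X_union_right c hAB, X_union_right c hAB,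
    X_union_right c hAB, X_comm c B A, X_comm c C A, X_comm c C B]
  linarith

lemma degree_eq {c : Finset (Fin p) → ℝ} (hc : IsDivisor c) {m : Finset (Fin p) → ℕ} {d : ℕ}
    (hm : IsCurve m d) : degree c m = d * H c univ - ∑ S : Finset (Fin p), m S * H c S := by
  have h1 : ∑ S : Finset (Fin p), (m S : ℝ) * X c S S = d * X c univ univ := by
    have h2 : ∀ S : Finset (Fin p), (m S : ℝ) * X c S S =
        ∑ i : Fin p, ∑ j : Fin p, if i ∈ S ∧ j ∈ S then c {i, j} * m S else 0 := by
      intro S
      unfold X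
      rw [mul_sum]
      rw [← sum_subset (subset_univ S)]
      · refine sum_congr rfl fun i hi => ?_
        rw [mul_sum, ← sum_subset (subset_univ S)]
        · refine sum_congr rfl fun j hj => ?_
          rw [if_pos ⟨hi, hj⟩, mul_comm]
        · intro j _ hj
          rw [if_neg (fun h => hj h.2)]
      · intro i _ hi
        refine sum_eq_zero fun j _ => ?_
        rw [if_neg (fun h => hi h.1)]
    rw [sum_congr rfl fun S _ => h2 S, sum_comm]
    unfold X
    rw [mul_sum]
    refine sum_congr rfl fun i _ => ?_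
    rw [sum_comm, mul_sum]
    refine sum_congr rfl fun j _ => ?_
    by_cases hij : i = j
    · subst hij
      have e1 : c {i, i} = 0 := hc.1 _ (by simp)
      rw [e1]
      simp
    · rw [← sum_filter, ← mul_sum, mul_comm]
      congr 1
      have := hm.2.2 i j hij
      rw [← this]
      push_cast
      rfl
  unfold degree
  have h3 : ∀ S : Finset (Fin p), c S * m S = (m S * X c S S) / 2 - m S * H c S := by
    intro S
    unfold H
    ring
  rw [sum_congr rfl fun S _ => h3 S, sum_sub_distrib, ← sum_div, h1]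
  have h4 : H c univ = X c univ univ / 2 := by
    unfold H
    rw [hc.2]; ring
  rw [h4]
  ring

/-! ### Nonnegativity -/

theorem link {c : Finset (Fin p) → ℝ} (hc : IsDivisor c) (hF : FNef c)
    {m : Finset (Fin p) → ℕ} {d : ℕ} (hm : IsCurve m d) (hl : LinkCond m d) :
    0 ≤ degree c m := by
  rw [degree_eq hc hm]
  have h1 := Pool.Agent.TH451.FC.main (h := H c) (H_small hc) (H_F hF) (m := m) (d := d)
    (fun i j hij => (hm.2.2 i j hij).le) hl
  linarith

theorem triple {c : Finset (Fin p) → ℝ} (hc : IsDivisor c) (hF : FNef c)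
    {m : Finset (Fin p) → ℕ} {d : ℕ} (hm : IsCurve m d)
    (h3 : ∀ S : Finset (Fin p), 4 ≤ S.card → m S = 0) : 0 ≤ degree c m := by
  refine link hc hF hm ?_
  intro x
  refine ⟨univ, fun _ => ∅, ?_, ?_, ?_⟩
  · intro S _ hS hm0 _
    refine ⟨?_, subset_univ _⟩
    by_contra hne
    have := h3 S (by omega)
    omega
  · intro S hx hS _ hd
    exfalso
    have h1 : (S.erase x).Nonempty := by
      rw [← card_pos, card_erase_of_mem hx]
      omega
    obtain ⟨y, hy⟩ := h1
    exact disjoint_left.1 hd hy (mem_univ y)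
  · intro S T _ _ _ _ _ _ _ _ _ _
    exact disjoint_empty_left _

theorem sparse {c : Finset (Fin p) → ℝ} (hc : IsDivisor c) (hF : FNef c)
    {m : Finset (Fin p) → ℕ} {d : ℕ} (hm : IsCurve m d)
    (h3 : ∀ S T : Finset (Fin p), S ≠ T → 4 ≤ S.card → 3 ≤ T.card → 0 < m S → 0 < m T →
      (S ∩ T).card ≤ 1) : 0 ≤ degree c m := by
  classical
  refine link hc hF hm ?_
  intro x
  have hmd : ∀ S : Finset (Fin p), 3 ≤ S.card → m S ≤ d := by
    intro S hS
    obtain ⟨i, hi, j, hj, hij⟩ := one_lt_card.1 (show 1 < S.card by omega)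
    rw [← hm.2.2 i j hij]
    exact single_le_sum (f := m) (fun _ _ => Nat.zero_le _)
      (mem_filter.2 ⟨mem_univ _, hi, hj⟩)
  have hex : ∀ S : Finset (Fin p), ∃ E : Finset (Fin d), 3 ≤ S.card → E.card = m S := by
    intro S
    by_cases hS : 3 ≤ S.card
    · obtain ⟨E, _, hE⟩ := exists_subset_card_eq (s := (univ : Finset (Fin d))) (n := m S)
        (by rw [card_univ, Fintype.card_fin]; exact hmd S hS)
      exact ⟨E, fun _ => hE⟩
    · exact ⟨∅, fun h => absurd h hS⟩
  choose col hcol using hex
  -- two collisions with at least four marks share at most one mark, etc.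
  have hsh : ∀ S T : Finset (Fin p), x ∈ S → x ∈ T → S ≠ T → 4 ≤ S.card → 3 ≤ T.card →
      0 < m S → 0 < m T → Disjoint (S.erase x) (T.erase x) := by
    intro S T hxS hxT hne hS hT hmS hmT
    have h4 := h3 S T hne hS hT hmS hmT
    rw [disjoint_left]
    intro y hyS hyT
    have h5 : ({x, y} : Finset (Fin p)) ⊆ S ∩ T := by
      intro z hz
      rw [mem_insert, mem_singleton] at hz
      rcases hz with rfl | rfl
      · exact mem_inter.2 ⟨hxS, hxT⟩
      · exact mem_inter.2 ⟨(mem_erase.1 hyS).2, (mem_erase.1 hyT).2⟩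
    have h6 := card_le_card h5
    rw [card_pair (mem_erase.1 hyS).1.symm] at h6
    omega
  refine ⟨univ.filter (fun y => ∀ S : Finset (Fin p), x ∈ S → 4 ≤ S.card → 0 < m S → y ∉ S),
    col, ?_, ?_, ?_⟩
  · intro S hx hS hmS hnd
    have hc3 : S.card = 3 := by
      by_contra hne
      apply hnd
      rw [disjoint_left]
      intro y hy hy'
      exact (mem_filter.1 hy').2 S hx (by omega) hmS (mem_erase.1 hy).2
    refine ⟨hc3, ?_⟩
    intro y hy
    rw [mem_filter]
    refine ⟨mem_univ _, fun T hxT hT hmT hyT => ?_⟩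
    have hne : T ≠ S := by
      rintro rfl
      omega
    exact disjoint_left.1 (hsh T S hxT hx hne hT hS hmT hmS)
      (mem_erase.2 ⟨(mem_erase.1 hy).1, hyT⟩) hy
  · intro S _ hS _ _
    exact hcol S hS
  · intro S T hxS hxT hne hS hT hmS hmT hdS hdT hnd
    exfalso
    by_cases h4 : 4 ≤ S.card
    · exact hnd (hsh S T hxS hxT hne h4 hT hmS hmT)
    · -- a collision of three marks outside `Y` meets a larger collision at `x`
      have h5 : ∃ y ∈ S.erase x, ∃ U : Finset (Fin p), x ∈ U ∧ 4 ≤ U.card ∧ 0 < m U ∧ y ∈ U := by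
        obtain ⟨y, hy⟩ : (S.erase x).Nonempty := by
          rw [← card_pos, card_erase_of_mem hxS]
          omega
        have h6 := disjoint_left.1 hdS hy
        rw [mem_filter] at h6
        push Not at h6
        obtain ⟨U, hU1, hU2, hU3, hU4⟩ := h6 (mem_univ _)
        exact ⟨y, hy, U, hU1, hU2, hU3, hU4⟩
      obtain ⟨y, hy, U, hU1, hU2, hU3, hU4⟩ := h5
      have hUS : U ≠ S := by
        rintro rfl
        exact h4 hU2
      exact disjoint_left.1 (hsh U S hU1 hxS hUS hU2 hS hU3 hmS)
        (mem_erase.2 ⟨(mem_erase.1 hy).1, hU4⟩) hy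

theorem motion {c : Finset (Fin p) → ℝ} (hc : IsDivisor c) (hF : FNef c)
    {k : Type} [Field k] [IsAlgClosed k] (d : ℕ) (x : Fin p → k[X])
    (hd : ∀ i, (x i).natDegree ≤ d) (hx : ∀ i j, i ≠ j → x i ≠ x j)
    (h1 : ∀ τ : Option k, ∃ i j, i ≠ j ∧ contact d x τ i j = 0)
    (h4 : ∀ (τ : Option k) (S : Finset (Fin p)), 4 ≤ S.card →
      ∃ i ∈ S, ∃ j ∈ S, i ≠ j ∧ contact d x τ i j = 0) :
    0 ≤ ∑ S ∈ univ.filter (fun S : Finset (Fin p) => 2 ≤ S.card ∧ S.card < p),
      c S * intersection d x S := by
  have econ : ∀ τ i j, contact d x τ i j = Pool.Agent.TH451.FC.contact d x τ i j := by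
    intro τ i j
    cases τ <;> rfl
  have eint : ∀ S, intersection d x S = Pool.Agent.TH451.FC.inter d x S := by
    intro S
    unfold intersection Pool.Agent.TH451.FC.inter
    simp only [econ]
  have huniv : Pool.Agent.TH451.FC.inter d x univ = 0 := by
    refine Pool.Agent.TH451.FC.inter_eq_zero hx fun τ => ?_
    obtain ⟨i, j, hij, h⟩ := h1 τ
    exact ⟨i, mem_univ _, j, mem_univ _, hij, by rw [← econ]; exact h⟩
  have hbig : ∀ S : Finset (Fin p), 4 ≤ S.card → Pool.Agent.TH451.FC.inter d x S = 0 := by
    intro S hS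
    refine Pool.Agent.TH451.FC.inter_eq_zero hx fun τ => ?_
    obtain ⟨i, hi, j, hj, hij, h⟩ := h4 τ S hS
    exact ⟨i, hi, j, hj, hij, by rw [← econ]; exact h⟩
  have hm : IsCurve (fun S : Finset (Fin p) =>
      if 2 ≤ S.card ∧ S.card < p then intersection d x S else 0) d := by
    refine ⟨?_, ?_, ?_⟩
    · intro S hS
      show (if 2 ≤ S.card ∧ S.card < p then intersection d x S else 0) = 0
      rw [if_neg (by omega)]
    · show (if 2 ≤ (univ : Finset (Fin p)).card ∧ (univ : Finset (Fin p)).card < p
        then intersection d x univ else 0) = 0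
      rw [if_neg]
      rw [card_univ, Fintype.card_fin]
      omega
    · intro i j hij
      refine Eq.trans ?_ (Pool.Agent.TH451.FC.pair_sum (k := k) hd hx hij)
      refine sum_congr rfl fun S hS => ?_
      rw [mem_filter] at hS
      have h2 : 2 ≤ S.card := one_lt_card.2 ⟨i, hS.2.1, j, hS.2.2, hij⟩
      show (if 2 ≤ S.card ∧ S.card < p then intersection d x S else 0) = _
      by_cases hp : S.card < p
      · rw [if_pos ⟨h2, hp⟩, eint]
      · rw [if_neg (fun h => hp h.2)]
        have h3 : S = univ := by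
          apply eq_univ_of_card
          rw [Fintype.card_fin]
          have h5 : S.card ≤ p := by
            have := card_le_univ S
            rwa [Fintype.card_fin] at this
          omega
        rw [h3, huniv]
  have h6 := triple hc hF hm (by
    intro S hS
    show (if 2 ≤ S.card ∧ S.card < p then intersection d x S else 0) = 0
    split_ifs
    · rw [eint, hbig S hS]
    · rfl)
  unfold degree at h6
  rw [sum_filter]
  refine h6.trans_eq (sum_congr rfl fun S _ => ?_)
  by_cases h2 : 2 ≤ S.card ∧ S.card < p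
  · simp only [if_pos h2]
  · simp only [if_neg h2, Nat.cast_zero, mul_zero]

/-- **Main theorem.** Let `D = ∑ c S • δ_S` be an F-nef divisor on `M̄_{0,p+1}` and let `C` be a
curve class with `C · δ_S = m S ≥ 0` for all boundary divisors and `C · ψ_∞ = d`.
1. If never more than three marks `≠ ∞` collide on `C` (`C · δ_S = 0` for all `S` with at least four
   elements, `∞ ∉ S`), then `D · C ≥ 0`.
2. `D · C ≥ 0` if any two different collisions on `C` which share more than one mark consist of at
   most three marks each, or one of them consists of two marks.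
3. `D · C ≥ 0` if `C` satisfies the condition `LinkCond`.
4. `D · C ≥ 0` for every curve `t ↦ ((x i)(t))_i, ∞` given by different polynomials `x i` of degree
   at most `d` over an algebraically closed field, if at no point of the projective line all marks
   or four marks (different from `∞`) collide. -/
theorem result :
    ∀ (p : ℕ) (c : Finset (Fin p) → ℝ), IsDivisor c → FNef c →
      (∀ (m : Finset (Fin p) → ℕ) (d : ℕ), IsCurve m d →
        (∀ S : Finset (Fin p), 4 ≤ S.card → m S = 0) → 0 ≤ degree c m) ∧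
      (∀ (m : Finset (Fin p) → ℕ) (d : ℕ), IsCurve m d →
        (∀ S T : Finset (Fin p), S ≠ T → 4 ≤ S.card → 3 ≤ T.card → 0 < m S → 0 < m T →
          (S ∩ T).card ≤ 1) → 0 ≤ degree c m) ∧
      (∀ (m : Finset (Fin p) → ℕ) (d : ℕ), IsCurve m d → LinkCond m d → 0 ≤ degree c m) ∧
      (∀ (k : Type) [Field k] [IsAlgClosed k] (d : ℕ) (x : Fin p → k[X]),
        (∀ i, (x i).natDegree ≤ d) → (∀ i j, i ≠ j → x i ≠ x j) →
        (∀ τ : Option k, ∃ i j, i ≠ j ∧ contact d x τ i j = 0) →
        (∀ (τ : Option k) (S : Finset (Fin p)), 4 ≤ S.card →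
          ∃ i ∈ S, ∃ j ∈ S, i ≠ j ∧ contact d x τ i j = 0) →
        0 ≤ ∑ S ∈ univ.filter (fun S : Finset (Fin p) => 2 ≤ S.card ∧ S.card < p),
          c S * intersection d x S) :=
  fun _ _ hc hF => ⟨fun _ _ hm h3 => triple hc hF hm h3, fun _ _ hm h3 => sparse hc hF hm h3,
    fun _ _ hm hl => link hc hF hm hl,
    fun _ _ _ d x hd hx h1 h4 => motion hc hF d x hd hx h1 h4⟩

end Pool.Agent.Results.MP_23e236_ag.TripleCollisions
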